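import Mathlib
import Pool.Agent.H.MP_0fee77_co.A

set_option autoImplicit false

namespace Pool.Agent.H.MP_df7c80_co

open SimpleGraph Pool.Agent.H.MP_0fee77_co

def el : List (Fin 15 × Fin 15) := [(0, 1), (1, 2), (2, 3), (0, 4), (4, 5), (5, 3), (0, 6), (6, 3),
  (0, 7), (7, 6), (0, 8), (1, 9), (2, 10), (4, 11), (5, 12), (6, 13), (7, 14)]

def ad (x y : Fin 15) : Bool := el.contains (x, y) || el.contains (y, x)

def G : SimpleGraph (Fin 15) where
  Adj x y := ad x y = true
  symm := ⟨fun x y h => by simpa [ad, or_comm] using h⟩
  loopless := ⟨by decide⟩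

instance : DecidableRel G.Adj := fun x y => inferInstanceAs (Decidable (ad x y = true))

def ok (s : Fin 15) : ℕ → List (Fin 15) → Fin 15 → ℕ → Bool
  | 0, _, _, _ => false
  | f + 1, vis, u, len => (List.finRange 15).all fun w => !ad u w ||
      (if w = s then (len + 1) % 3 != 1 else vis.contains w || ok s f (w :: vis) w (len + 1))

theorem ok_sound (s : Fin 15) (f : ℕ) : ∀ vis u len, ok s f vis u len = true → u ≠ s →
    ∀ p : G.Walk u s, p.IsPath → (∀ x ∈ p.support.tail, x ∉ vis) → (len + p.length) % 3 ≠ 1 := by
  induction f with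
  | zero => intro vis u len h; simp [ok] at h
  | succ f ih =>
    intro vis u len h hu p hp hv
    cases p with
    | nil => exact absurd rfl hu
    | @cons _ w _ a q =>
      rw [ok, List.all_eq_true] at h
      have h1 := h w (List.mem_finRange w)
      have a' : ad u w = true := a
      rw [Walk.cons_isPath_iff] at hp
      simp only [Walk.support_cons, List.tail_cons] at hv
      by_cases e : w = s
      · subst e
        have := Walk.isPath_iff_eq_nil.1 hp.1
        subst this
        simpa [a'] using h1
      · have hw := hv w q.start_mem_support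
        have h2 : ok s f (w :: vis) w (len + 1) = true := by simpa [a', e, hw] using h1
        have := ih _ _ _ h2 e q hp.1 (fun x hx => by
          have n := hp.1.support_nodup
          rw [q.support_eq_cons, List.nodup_cons] at n
          simp only [List.mem_cons, not_or]
          exact ⟨fun e => n.1 (e ▸ hx), hv x (List.mem_of_mem_tail hx)⟩)
        rw [Walk.length_cons]
        omega

def sr (y : Fin 15) : ℕ → List (Fin 15) → Fin 15 → ℕ → Bool
  | 0, _, _, _ => false
  | f + 1, vis, u, len => if u = y then len % 3 == 0 else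
      (List.finRange 15).any fun w => ad u w && !vis.contains w && sr y f (w :: vis) w (len + 1)

theorem sr_sound (y : Fin 15) (f : ℕ) : ∀ vis u len, sr y f vis u len = true → u ∈ vis →
    ∃ p : G.Walk u y, p.IsPath ∧ (∀ x ∈ p.support.tail, x ∉ vis) ∧ (len + p.length) % 3 = 0 := by
  induction f with
  | zero => intro vis u len h; simp [sr] at h
  | succ f ih =>
    intro vis u len h hu
    rw [sr] at h
    split_ifs at h with e
    · subst e
      exact ⟨.nil, by simp, by simp, by simpa using h⟩
    · obtain ⟨w, -, hw⟩ := List.any_eq_true.1 h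
      simp only [Bool.and_eq_true, Bool.not_eq_true', List.contains_eq_mem,
        decide_eq_false_iff_not] at hw
      obtain ⟨p, p1, p2, p3⟩ := ih _ _ _ hw.2 List.mem_cons_self
      have hs : ∀ x ∈ p.support, x ∉ vis := by
        intro x hx
        rw [p.support_eq_cons, List.mem_cons] at hx
        rcases hx with rfl | hx
        · exact hw.1.2
        · exact fun e => p2 x hx (List.mem_cons_of_mem _ e)
      refine ⟨.cons (show G.Adj u w from hw.1.1) p, ?_, by simpa using hs, ?_⟩
      · rw [Walk.cons_isPath_iff]
        exact ⟨p1, fun e => hs u e hu⟩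
      · rw [Walk.length_cons]
        omega

theorem c1 : ∀ s w : Fin 15, ad s w = true → ok s 15 [w] w 1 = true := by decide +kernel

theorem c2 : ∀ x y : Fin 15, x ≠ y → ad x y = false → sr y 15 [x] x 0 = true := by decide +kernel

theorem c3 : G.edgeFinset.card = 17 := by decide +kernel

theorem sat_G : Sat G {l | 4 ≤ l ∧ l % 3 = 1} := by
  constructor
  · rintro ⟨v, c, hc, -, hl⟩
    cases c with
    | nil => simp at hl
    | @cons _ w _ a p =>
      rw [Walk.cons_isCycle_iff] at hc
      refine ok_sound v 15 [w] w 1 (c1 v w a) a.ne' p hc.1 (fun x hx => ?_)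
        (by rw [Walk.length_cons] at hl; omega)
      have n := hc.1.support_nodup
      rw [p.support_eq_cons, List.nodup_cons] at n
      simp only [List.mem_singleton]
      exact fun e => n.1 (e ▸ hx)
  · intro x y hne hn
    obtain ⟨p, p1, -, p3⟩ := sr_sound y 15 [x] x 0 (c2 x y hne (by simpa [G] using hn)) (by simp)
    have ha : (G ⊔ edge x y).Adj y x := Or.inr (by simp [edge_adj, hne.symm])
    have hle : G ≤ G ⊔ edge x y := le_sup_left
    have h0 : p.length ≠ 0 := fun e => hne (Walk.eq_of_length_eq_zero e)
    refine ⟨y, .cons ha (p.mapLe hle), ?_, by simp; omega⟩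
    rw [Walk.cons_isCycle_iff]
    refine ⟨p1.mapLe hle, fun h => hn ?_⟩
    rw [Walk.edges_mapLe_eq_edges] at h
    exact (p.adj_of_mem_edges h).symm

end Pool.Agent.H.MP_df7c80_co
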